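import Pool.Agent.Helper60.AD.Defs
import Pool.Agent.Helper11.AD.Small
import Pool.Agent.Helper11.MM.Dil

/-!
# MM-M6, core: summation of the blocks in the norm of `L^(2J)` over the radii
-/

open MeasureTheory Real Set Filter Topology

set_option autoImplicit false

namespace Pool.Agent.Helper11.MM

open Pool.Agent.Helper22.AE
open Pool.Agent.Helper22.AC (cntc)
open Pool.Agent.Helper92.GC (dt sqa)
open Pool.Agent.Helper60.AD

/-- weighted power mean -/
theorem wpm {ι : Type*} (s : Finset ι) (w z : ι → ℝ) (hw : ∀ i ∈ s, 0 ≤ w i) (hz : ∀ i ∈ s, 0 ≤ z i) {Z : ℝ}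
    (hZ : ∑ i ∈ s, w i ≤ Z) (hZ1 : 1 ≤ Z) {p : ℕ} (hp : 1 ≤ p) :
    (∑ i ∈ s, w i * z i) ^ p ≤ Z ^ p * ∑ i ∈ s, w i * z i ^ p := by
  have h0 : 0 ≤ ∑ i ∈ s, w i := Finset.sum_nonneg hw
  have hS : 0 ≤ ∑ i ∈ s, w i * z i ^ p := Finset.sum_nonneg fun i hi => mul_nonneg (hw i hi) (pow_nonneg (hz i hi) _)
  rcases h0.eq_or_lt with h | h
  · have h1 : ∀ i ∈ s, w i = 0 := (Finset.sum_eq_zero_iff_of_nonneg hw).mp h.symm
    have h2 : ∑ i ∈ s, w i * z i = 0 := Finset.sum_eq_zero fun i hi => by rw [h1 i hi, zero_mul]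
    rw [h2, zero_pow (by omega)]
    positivity
  · set t := ∑ i ∈ s, w i with ht
    have h1 := Real.pow_arith_mean_le_arith_mean_pow s (fun i => w i / t) z (fun i hi => div_nonneg (hw i hi) h.le)
      (by rw [← Finset.sum_div]; exact div_self h.ne') hz p
    have h2 : ∑ i ∈ s, w i * z i = t * ∑ i ∈ s, w i / t * z i := by
      rw [Finset.mul_sum]
      refine Finset.sum_congr rfl fun i _ => ?_
      field_simp
    have h3 : ∑ i ∈ s, w i / t * z i ^ p = (∑ i ∈ s, w i * z i ^ p) / t := by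
      rw [Finset.sum_div]
      refine Finset.sum_congr rfl fun i _ => ?_
      field_simp
    rw [h3] at h1
    rw [h2, mul_pow]
    calc t ^ p * (∑ i ∈ s, w i / t * z i) ^ p ≤ t ^ p * ((∑ i ∈ s, w i * z i ^ p) / t) :=
          mul_le_mul_of_nonneg_left h1 (by positivity)
      _ = t ^ (p - 1) * ∑ i ∈ s, w i * z i ^ p := by
          obtain ⟨q, rfl⟩ : ∃ q, p = q + 1 := ⟨p - 1, by omega⟩
          rw [Nat.add_sub_cancel, pow_succ]
          field_simp
      _ ≤ Z ^ p * ∑ i ∈ s, w i * z i ^ p := by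
          refine mul_le_mul_of_nonneg_right ?_ hS
          calc t ^ (p - 1) ≤ Z ^ (p - 1) := pow_le_pow_left₀ h.le hZ _
            _ ≤ Z ^ p := pow_le_pow_right₀ hZ1 (by omega)

/-- the sum of four terms -/
theorem four_pow {a b c e : ℝ} (ha : 0 ≤ a) (hb : 0 ≤ b) (hc : 0 ≤ c) (he : 0 ≤ e) (p : ℕ) :
    (a + b + c + e) ^ p ≤ 4 ^ p * (a ^ p + b ^ p + c ^ p + e ^ p) := by
  have key : ∀ m : ℝ, 0 ≤ m → a ≤ m → b ≤ m → c ≤ m → e ≤ m → m ^ p ≤ a ^ p + b ^ p + c ^ p + e ^ p →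
      (a + b + c + e) ^ p ≤ 4 ^ p * (a ^ p + b ^ p + c ^ p + e ^ p) := by
    intro m hm h1 h2 h3 h4 h5
    calc (a + b + c + e) ^ p ≤ (4 * m) ^ p := pow_le_pow_left₀ (by positivity) (by linarith) _
      _ = 4 ^ p * m ^ p := mul_pow _ _ _
      _ ≤ _ := mul_le_mul_of_nonneg_left h5 (by positivity)
  have pa := pow_nonneg ha p
  have pb := pow_nonneg hb p
  have pc := pow_nonneg hc p
  have pe := pow_nonneg he p
  rcases le_total a b with h1 | h1 <;> rcases le_total c e with h2 | h2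
  · rcases le_total b e with h3 | h3
    · exact key e he (h1.trans h3) h3 h2 le_rfl (by linarith)
    · exact key b hb h1 le_rfl (h2.trans h3) h3 (by linarith)
  · rcases le_total b c with h3 | h3
    · exact key c hc (h1.trans h3) h3 le_rfl h2 (by linarith)
    · exact key b hb h1 le_rfl h3 (h2.trans h3) (by linarith)
  · rcases le_total a e with h3 | h3
    · exact key e he h3 (h1.trans h3) h2 le_rfl (by linarith)
    · exact key a ha le_rfl h1 (h2.trans h3) h3 (by linarith)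
  · rcases le_total a c with h3 | h3
    · exact key c hc h3 (h1.trans h3) le_rfl h2 (by linarith)
    · exact key a ha le_rfl h1 h3 (h2.trans h3) (by linarith)

/-- the geometric sum -/
theorem geo_le {κ : ℝ} (hκ : 0 < κ) : ∃ G : ℝ, 0 ≤ G ∧ ∀ m : ℕ, ∑ n ∈ Finset.range m, ((2 : ℝ) ^ n) ^ (-κ) ≤ G := by
  have h1 : (2 : ℝ) ^ (-κ) < 1 := Real.rpow_lt_one_of_one_lt_of_neg (by norm_num) (by linarith)
  have h0 : (0 : ℝ) ≤ 2 ^ (-κ) := by positivity
  have hs := summable_geometric_of_lt_one h0 h1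
  refine ⟨∑' n : ℕ, ((2 : ℝ) ^ (-κ)) ^ n, tsum_nonneg fun n => by positivity, fun m => ?_⟩
  have e : ∀ n : ℕ, ((2 : ℝ) ^ n) ^ (-κ) = ((2 : ℝ) ^ (-κ)) ^ n := by
    intro n
    rw [← Real.rpow_natCast, ← Real.rpow_natCast, ← Real.rpow_mul (by norm_num), ← Real.rpow_mul (by norm_num), mul_comm]
  rw [Finset.sum_congr rfl fun n _ => e n]
  exact hs.sum_le_tsum _ fun n _ => by positivity

theorem shift_integrable {W : ℝ → ℝ} {a b a' b' d : ℝ} (hi : IntegrableOn W (Icc a' b')) (ha : a' ≤ a + d) (hb : b + d ≤ b') :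
    IntegrableOn (fun R => W (R + d)) (Icc a b) := by
  have h1 : IntegrableOn W (Icc (a + d) (b + d)) := hi.mono_set (Icc_subset_Icc ha hb)
  rw [← integrable_indicator_iff measurableSet_Icc] at h1 ⊢
  have h2 := h1.comp_add_right d
  refine h2.congr (ae_of_all _ fun R => ?_)
  simp only [indicator, mem_Icc, add_le_add_iff_right]

theorem shift_le {W : ℝ → ℝ} (h0 : ∀ R, 0 ≤ W R) {a b a' b' d : ℝ} (hi : IntegrableOn W (Icc a' b')) (ha : a' ≤ a + d)
    (hb : b + d ≤ b') : ∫ R in Icc a b, W (R + d) ≤ ∫ R in Icc a' b', W R := by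
  have e : ∫ R in Icc a b, W (R + d) = ∫ R in Icc (a + d) (b + d), W R := by
    rw [← integral_indicator measurableSet_Icc, ← integral_indicator measurableSet_Icc,
      ← integral_add_right_eq_self (μ := volume) ((Icc (a + d) (b + d)).indicator W) d]
    refine integral_congr_ae (ae_of_all _ fun R => ?_)
    simp only [indicator, mem_Icc, add_le_add_iff_right]
  rw [e]
  exact setIntegral_mono_set hi (ae_of_all _ fun R => h0 R) (Icc_subset_Icc ha hb).eventuallyLE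

private lemma pow_ex (x : ℝ) : ∃ n : ℕ, x ≤ 2 ^ n := by
  obtain ⟨n, hn⟩ := pow_unbounded_of_one_lt x one_lt_two
  exact ⟨n, hn.le⟩

/-- a multiple of a support function -/
private lemma supp_mul {H : ℝ → ℝ} (hH : IsSupp H) {r : ℝ} (hr : 0 < r) : IsSupp (fun θ => r * H θ) := by
  have e : deriv (deriv (fun θ => r * H θ)) = fun θ => r * deriv (deriv H) θ := by
    have e1 : deriv (fun θ => r * H θ) = fun θ => r * deriv H θ := by
      funext θ
      rw [deriv_const_mul_field]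
    rw [e1]
    funext θ
    rw [deriv_const_mul_field]
  refine ⟨contDiff_const.mul hH.smooth, fun θ => ?_, fun θ => mul_pos hr (hH.pos θ), fun θ => ?_⟩
  · show r * H (θ + 2 * π) = r * H θ
    rw [hH.per θ]
  · rw [e]
    show 0 < r * H θ + r * deriv (deriv H) θ
    rw [← mul_add]
    exact mul_pos hr (hH.rho_pos θ)

/-- the exponent of two against a square root -/
private lemma nat_le_root (N : ℕ) : (N : ℝ) ≤ 2 / log 2 * ((2 : ℝ) ^ N) ^ (1 / 2 : ℝ) := by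
  have hl : 0 < log 2 := Real.log_pos (by norm_num)
  have h1 : ((2 : ℝ) ^ N) ^ (1 / 2 : ℝ) = exp (N * (log 2 * (1 / 2))) := by
    rw [← Real.rpow_natCast, ← Real.rpow_mul (by norm_num), Real.rpow_def_of_pos (by norm_num)]
    congr 1
    ring
  have h2 := Real.add_one_le_exp (N * (log 2 * (1 / 2)))
  rw [h1]
  have h3 : (N : ℝ) = 2 / log 2 * (N * (log 2 * (1 / 2))) := by
    field_simp
  calc (N : ℝ) = 2 / log 2 * (N * (log 2 * (1 / 2))) := h3
    _ ≤ _ := mul_le_mul_of_nonneg_left (by linarith) (by positivity)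

/-- the sum over the blocks at one radius -/
theorem blocks_pow {J : ℕ} (hJ : 1 ≤ J) {κ G : ℝ} {nT n1 : ℕ} (hG : ∑ n ∈ Finset.range n1, ((2 : ℝ) ^ n) ^ (-κ) ≤ G) (hG0 : 0 ≤ G)
    (V : ℕ → Fin nT → ℕ → ℝ) (hV : ∀ n i r, 0 ≤ V n i r) :
    (∑ n ∈ Finset.range n1, ((2 : ℝ) ^ n) ^ (-(3 / 2) : ℝ) * (∑ i, ∑ r ∈ Finset.range 2, V n i r ^ (((2 * J : ℕ) : ℝ)⁻¹))) ^ (2 * J) ≤
      (2 * nT * G + 1) ^ (2 * J) *
        ∑ n ∈ Finset.range n1, ((2 : ℝ) ^ n) ^ ((2 * J - 1) * κ - 3 * J) * (∑ i, ∑ r ∈ Finset.range 2, V n i r) := by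
  have h := wpm (Finset.range n1 ×ˢ ((Finset.univ : Finset (Fin nT)) ×ˢ Finset.range 2))
    (fun t => ((2 : ℝ) ^ t.1) ^ (-κ))
    (fun t => ((2 : ℝ) ^ t.1) ^ (κ - 3 / 2) * V t.1 t.2.1 t.2.2 ^ (((2 * J : ℕ) : ℝ)⁻¹))
    (fun t _ => by positivity) (fun t _ => mul_nonneg (by positivity) (Real.rpow_nonneg (hV _ _ _) _)) (Z := 2 * nT * G + 1)
    (by
      rw [Finset.sum_product]
      simp only [Finset.sum_const, Finset.card_product, Finset.card_univ, Fintype.card_fin, Finset.card_range, nsmul_eq_mul]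
      rw [← Finset.mul_sum]
      push_cast
      have : (0 : ℝ) ≤ nT * 2 := by positivity
      nlinarith [mul_le_mul_of_nonneg_left hG this])
    (by
      have : (0 : ℝ) ≤ 2 * nT * G := by positivity
      linarith) (p := 2 * J) (by omega)
  have e1 : ∑ n ∈ Finset.range n1, ((2 : ℝ) ^ n) ^ (-(3 / 2) : ℝ) * (∑ i, ∑ r ∈ Finset.range 2, V n i r ^ (((2 * J : ℕ) : ℝ)⁻¹)) =
      ∑ t ∈ Finset.range n1 ×ˢ ((Finset.univ : Finset (Fin nT)) ×ˢ Finset.range 2),
        ((2 : ℝ) ^ t.1) ^ (-κ) * (((2 : ℝ) ^ t.1) ^ (κ - 3 / 2) * V t.1 t.2.1 t.2.2 ^ (((2 * J : ℕ) : ℝ)⁻¹)) := by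
    rw [Finset.sum_product]
    refine Finset.sum_congr rfl fun n _ => ?_
    rw [Finset.sum_product, Finset.mul_sum]
    refine Finset.sum_congr rfl fun i _ => ?_
    rw [Finset.mul_sum]
    refine Finset.sum_congr rfl fun r _ => ?_
    have hx : (0 : ℝ) < 2 ^ n := by positivity
    rw [← mul_assoc, ← Real.rpow_add hx]
    congr 2
    ring
  have e2 : ∑ t ∈ Finset.range n1 ×ˢ ((Finset.univ : Finset (Fin nT)) ×ˢ Finset.range 2),
        ((2 : ℝ) ^ t.1) ^ (-κ) * (((2 : ℝ) ^ t.1) ^ (κ - 3 / 2) * V t.1 t.2.1 t.2.2 ^ (((2 * J : ℕ) : ℝ)⁻¹)) ^ (2 * J) =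
      ∑ n ∈ Finset.range n1, ((2 : ℝ) ^ n) ^ ((2 * J - 1) * κ - 3 * J) * (∑ i, ∑ r ∈ Finset.range 2, V n i r) := by
    rw [Finset.sum_product]
    refine Finset.sum_congr rfl fun n _ => ?_
    rw [Finset.sum_product, Finset.mul_sum]
    refine Finset.sum_congr rfl fun i _ => ?_
    rw [Finset.mul_sum]
    refine Finset.sum_congr rfl fun r _ => ?_
    have hx : (0 : ℝ) < 2 ^ n := by positivity
    have e3 : (((2 : ℝ) ^ n) ^ (κ - 3 / 2)) ^ (2 * J) = ((2 : ℝ) ^ n) ^ ((κ - 3 / 2) * ((2 * J : ℕ) : ℝ)) := by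
      rw [Real.rpow_mul hx.le, Real.rpow_natCast]
    show ((2 : ℝ) ^ n) ^ (-κ) * (((2 : ℝ) ^ n) ^ (κ - 3 / 2) * V n i r ^ (((2 * J : ℕ) : ℝ)⁻¹)) ^ (2 * J) = _
    rw [mul_pow, Real.rpow_inv_natCast_pow (hV n i r) (by omega), e3, ← mul_assoc, ← Real.rpow_add hx]
    congr 2
    push_cast
    ring
  rw [e1, ← e2]
  exact h

end Pool.Agent.Helper11.MM
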