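import Pool.Agent.Helper11.MM.Core

/-!
# MM-M6, the majorant of the `2J`-th power of the error over a dyadic interval of radii
-/

open MeasureTheory Real Set Filter Topology

set_option autoImplicit false

namespace Pool.Agent.Helper11.MM

open Pool.Agent.Helper22.AE
open Pool.Agent.Helper22.AC (cntc)
open Pool.Agent.Helper92.GC (dt sqa)
open Pool.Agent.Helper60.AD

private lemma pow_ex (x : ℝ) : ∃ n : ℕ, x ≤ 2 ^ n := by
  obtain ⟨n, hn⟩ := pow_unbounded_of_one_lt x one_lt_two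
  exact ⟨n, hn.le⟩

/-- a multiple of a support function -/
private lemma supp_mul {H : ℝ → ℝ} (hH : IsSupp H) {r : ℝ} (hr : 0 < r) : IsSupp (fun θ => r * H θ) := by
  have e : deriv (deriv (fun θ => r * H θ)) = fun θ => r * deriv (deriv H) θ := by
    have e1 : deriv (fun θ => r * H θ) = fun θ => r * deriv H θ := by
      funext θ
      rw [deriv_const_mul_field]
    rw [e1]
    funext θ
    rw [deriv_const_mul_field]
  refine ⟨contDiff_const.mul hH.smooth, fun θ => ?_, fun θ => mul_pos hr (hH.pos θ), fun θ => ?_⟩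
  · show r * H (θ + 2 * π) = r * H θ
    rw [hH.per θ]
  · rw [e]
    show 0 < r * H θ + r * deriv (deriv H) θ
    rw [← mul_add]
    exact mul_pos hr (hH.rho_pos θ)

/-- the exponent of two against a square root -/
private lemma nat_le_root (N : ℕ) : (N : ℝ) ≤ 2 / log 2 * ((2 : ℝ) ^ N) ^ (1 / 2 : ℝ) := by
  have hl : 0 < log 2 := Real.log_pos (by norm_num)
  have h1 : ((2 : ℝ) ^ N) ^ (1 / 2 : ℝ) = exp (N * (log 2 * (1 / 2))) := by
    rw [← Real.rpow_natCast, ← Real.rpow_mul (by norm_num), Real.rpow_def_of_pos (by norm_num)]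
    congr 1
    ring
  have h2 := Real.add_one_le_exp (N * (log 2 * (1 / 2)))
  rw [h1]
  have h3 : (N : ℝ) = 2 / log 2 * (N * (log 2 * (1 / 2))) := by
    field_simp
  calc (N : ℝ) = 2 / log 2 * (N * (log 2 * (1 / 2))) := h3
    _ ≤ _ := mul_le_mul_of_nonneg_left (by linarith) (by positivity)

/-- the integral of the weighted sum of the majorants -/
theorem TT_int {J : ℕ} (hJ : 1 ≤ J) {u A R0 : ℝ} (hu : 0 < u) (hA : 0 ≤ A) (hR0 : 0 < R0) {G : ℝ} {nT n1 : ℕ}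
    (hG : ∑ n ∈ Finset.range n1, ((2 : ℝ) ^ n) ^ (-(u / (4 * J))) ≤ G) (hG0 : 0 ≤ G)
    (W : ℕ → Fin nT → ℕ → ℝ → ℝ) (hW : ∀ n i r, IntegrableOn (W n i r) (Icc (R0 / 2) (4 * R0)))
    (hb : ∀ n < n1, ∀ i, ∀ r < 2, ∫ R in Icc (R0 / 2) (4 * R0), W n i r R ≤ A * R0 * ((2 : ℝ) ^ (n + r)) ^ (3 * J - u : ℝ))
    (hu1 : u ≤ 1) :
    ∫ R in Icc (R0 / 2) (4 * R0), ∑ n ∈ Finset.range n1, ((2 : ℝ) ^ n) ^ ((2 * J - 1) * (u / (4 * J)) - 3 * J) *
      (∑ i, ∑ r ∈ Finset.range 2, W n i r R) ≤ 2 * nT * 8 ^ J * A * G * R0 := by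
  have hJ1 : (1 : ℝ) ≤ J := by exact_mod_cast hJ
  have hi1 : ∀ n, IntegrableOn (fun R => ∑ i, ∑ r ∈ Finset.range 2, W n i r R) (Icc (R0 / 2) (4 * R0)) := by
    intro n
    exact integrable_finsetSum _ fun i _ => integrable_finsetSum _ fun r _ => hW n i r
  rw [integral_finsetSum _ fun n _ => (hi1 n).const_mul _]
  have hterm : ∀ n ∈ Finset.range n1, ∫ R in Icc (R0 / 2) (4 * R0),
      ((2 : ℝ) ^ n) ^ ((2 * J - 1) * (u / (4 * J)) - 3 * J) * (∑ i, ∑ r ∈ Finset.range 2, W n i r R) ≤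
        2 * nT * 8 ^ J * A * R0 * ((2 : ℝ) ^ n) ^ (-(u / (4 * J))) := by
    intro n hn
    rw [Finset.mem_range] at hn
    rw [integral_const_mul, integral_finsetSum _ fun i _ => integrable_finsetSum _ fun r _ => hW n i r]
    have hx : (0 : ℝ) < 2 ^ n := by positivity
    have hx1 : (1 : ℝ) ≤ 2 ^ n := one_le_pow₀ (by norm_num)
    have h1 : ∀ i : Fin nT, ∫ R in Icc (R0 / 2) (4 * R0), ∑ r ∈ Finset.range 2, W n i r R ≤
        2 * (8 ^ J * A * R0 * ((2 : ℝ) ^ n) ^ (3 * J - u : ℝ)) := by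
      intro i
      rw [integral_finsetSum _ fun r _ => hW n i r]
      refine (Finset.sum_le_card_nsmul _ _ (8 ^ J * A * R0 * ((2 : ℝ) ^ n) ^ (3 * J - u : ℝ)) fun r hr => ?_).trans
        (le_of_eq (by rw [Finset.card_range, nsmul_eq_mul]; norm_num))
      rw [Finset.mem_range] at hr
      refine (hb n hn i r hr).trans ?_
      have h2 : ((2 : ℝ) ^ (n + r)) ^ (3 * J - u : ℝ) ≤ 8 ^ J * ((2 : ℝ) ^ n) ^ (3 * J - u : ℝ) := by
        rw [pow_add, mul_comm ((2 : ℝ) ^ n), Real.mul_rpow (by positivity) hx.le]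
        refine mul_le_mul_of_nonneg_right ?_ (by positivity)
        have h3 : (2 : ℝ) ^ r ≤ 2 := by
          calc (2 : ℝ) ^ r ≤ 2 ^ 1 := pow_le_pow_right₀ (by norm_num) (by omega)
            _ = 2 := pow_one _
        calc ((2 : ℝ) ^ r) ^ (3 * J - u : ℝ) ≤ 2 ^ (3 * J - u : ℝ) :=
              Real.rpow_le_rpow (by positivity) h3 (by linarith)
          _ ≤ 2 ^ (3 * J : ℝ) := Real.rpow_le_rpow_of_exponent_le (by norm_num) (by linarith)
          _ = 8 ^ J := by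
            rw [Real.rpow_mul (by norm_num), Real.rpow_natCast]
            norm_num
      calc A * R0 * ((2 : ℝ) ^ (n + r)) ^ (3 * J - u : ℝ) ≤ A * R0 * (8 ^ J * ((2 : ℝ) ^ n) ^ (3 * J - u : ℝ)) :=
            mul_le_mul_of_nonneg_left h2 (by positivity)
        _ = _ := by ring
    have h4 : ∑ i : Fin nT, ∫ R in Icc (R0 / 2) (4 * R0), ∑ r ∈ Finset.range 2, W n i r R ≤
        nT * (2 * (8 ^ J * A * R0 * ((2 : ℝ) ^ n) ^ (3 * J - u : ℝ))) := by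
      refine (Finset.sum_le_card_nsmul _ _ _ fun i _ => h1 i).trans (le_of_eq ?_)
      rw [Finset.card_univ, Fintype.card_fin, nsmul_eq_mul]
    have h5 : ((2 : ℝ) ^ n) ^ ((2 * J - 1) * (u / (4 * J)) - 3 * J) * ((2 : ℝ) ^ n) ^ (3 * J - u : ℝ) ≤
        ((2 : ℝ) ^ n) ^ (-(u / (4 * J))) := by
      rw [← Real.rpow_add hx]
      apply Real.rpow_le_rpow_of_exponent_le hx1
      have h6 : u / (4 * J) * (4 * J) = u := by field_simp
      have h7 : 0 < u / (4 * J) := by positivity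
      nlinarith
    calc ((2 : ℝ) ^ n) ^ ((2 * J - 1) * (u / (4 * J)) - 3 * J) *
          ∑ i : Fin nT, ∫ R in Icc (R0 / 2) (4 * R0), ∑ r ∈ Finset.range 2, W n i r R
        ≤ ((2 : ℝ) ^ n) ^ ((2 * J - 1) * (u / (4 * J)) - 3 * J) *
          (nT * (2 * (8 ^ J * A * R0 * ((2 : ℝ) ^ n) ^ (3 * J - u : ℝ)))) := mul_le_mul_of_nonneg_left h4 (by positivity)
      _ = 2 * nT * 8 ^ J * A * R0 * (((2 : ℝ) ^ n) ^ ((2 * J - 1) * (u / (4 * J)) - 3 * J) *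
          ((2 : ℝ) ^ n) ^ (3 * J - u : ℝ)) := by ring
      _ ≤ _ := mul_le_mul_of_nonneg_left h5 (by positivity)
  refine (Finset.sum_le_sum hterm).trans ?_
  rw [← Finset.mul_sum]
  calc 2 * nT * 8 ^ J * A * R0 * ∑ n ∈ Finset.range n1, ((2 : ℝ) ^ n) ^ (-(u / (4 * J)))
      ≤ 2 * nT * 8 ^ J * A * R0 * G := mul_le_mul_of_nonneg_left hG (by positivity)
    _ = _ := by ring

theorem core {L : ℕ} {H₀ : ℝ → ℝ} (h0 : ContDiff ℝ 2 H₀) (hp : Function.Periodic H₀ (2 * π)) {J : ℕ} (hJ : 1 ≤ J) {e2 u A : ℝ}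
    (he2 : 0 < e2) (he2' : e2 ≤ 1 / 4) (hu : 0 < u) (hu1 : u ≤ 1) (hA : 0 ≤ A) {nT : ℕ} {C : ℝ} (hC : 0 ≤ C)
    (b : ℕ → Fin nT → ℝ → ℤ × ℤ → ℂ)
    (w : (Fin L → ℝ) × (Fin L → ℝ)) (hw : ∀ θ, 0 < Hw H₀ w θ + deriv (deriv (Hw H₀ w)) θ)
    (hty : ∀ (n : ℕ) (p : ℝ × ℝ) (R₀ R : ℝ), 1 ≤ R₀ →
        R ∈ Icc (R₀ / 2) (4 * R₀) → IsSupp (fun θ => R * (Hw H₀ w θ - (p.1 * cos θ + p.2 * sin θ))) → ∀ c : ℝ × ℝ, ∃ c' : ℝ × ℝ,
          ‖∑ k ∈ sqa (2 ^ n), ft (fun θ => R * (Hw H₀ w θ - (p.1 * cos θ + p.2 * sin θ))) k * ee (dt k c)‖ ≤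
            C * R₀ ^ (1 / 2 : ℝ) * ((2 : ℝ) ^ n) ^ (-(3 / 2) : ℝ) * (∑ i, ∑ r ∈ Finset.range 2,
              ∫ α in Icc (-π) π ∩ {α | 1 / 2 ≤ |cos α|}, k0 ((R₀ * 2 ^ n) ^ (-(1 / 2) : ℝ)) α *
                ‖Sc (Hw H₀ w) (blk (n + r)) (b n i α) R α c'‖) + C)
    {N₁ : ℕ} (hW : ∀ N : ℕ, N₁ ≤ N → ∀ n : ℕ, ∀ i : Fin nT, ∀ r < 2, (2 : ℝ) ^ (n + r) ≤ ((2 : ℝ) ^ N) ^ (1 / 2 + e2) →
      ∃ W : ℝ → ℝ, Measurable W ∧ IntegrableOn W (Icc ((2 : ℝ) ^ N / 2) (4 * 2 ^ N)) ∧ (∀ R, 0 ≤ W R) ∧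
        (∀ R ∈ Icc ((2 : ℝ) ^ N / 2) (4 * 2 ^ N), ∀ c : ℝ × ℝ,
          (∫ α in Icc (-π) π ∩ {α | 1 / 2 ≤ |cos α|}, k0 (((2 : ℝ) ^ N * 2 ^ n) ^ (-(1 / 2) : ℝ)) α *
            ‖Sc (Hw H₀ w) (blk (n + r)) (b n i α) R α c‖) ^ (2 * J) ≤ W R) ∧
        ∫ R in Icc ((2 : ℝ) ^ N / 2) (4 * 2 ^ N), W R ≤ A * 2 ^ N * ((2 : ℝ) ^ (n + r)) ^ (3 * J - u : ℝ)) :
    ∃ (K : ℝ) (N₂ : ℕ), 0 ≤ K ∧ ∀ N : ℕ, N₂ ≤ N → ∃ V : ℝ → ℝ, Measurable V ∧ IntegrableOn V (Icc ((2 : ℝ) ^ N) (2 * 2 ^ N)) ∧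
      (∀ R ∈ Icc ((2 : ℝ) ^ N) (2 * 2 ^ N), ∀ c : ℝ × ℝ, |cntc (Hw H₀ w) c R - area (Hw H₀ w) * R ^ 2| ^ (2 * J) ≤ V R) ∧
      (∀ R, 0 ≤ V R) ∧ ∫ R in Icc ((2 : ℝ) ^ N) (2 * 2 ^ N), V R ≤ K * ((2 : ℝ) ^ N) ^ (J + 1) := by
  classical
  have hS2 := Hw_smooth h0 w
  have hSp := Hw_per hp w
  obtain ⟨p, hH⟩ := Pool.Agent.Helper11.AD.exists_inner hS2 hSp hw
  obtain ⟨Cd, R₁, hR₁, hdil⟩ := dil_blocks_pt hH (τ := 1 / 2) (e2 := e2 / 2) (by norm_num) (by norm_num) (by linarith)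
  obtain ⟨N₂, hN₂⟩ := pow_ex R₁
  obtain ⟨N₃, hN₃⟩ : ∃ N₃ : ℕ, 2 / e2 ≤ N₃ := exists_nat_ge _
  have hl : 0 < log 2 := Real.log_pos (by norm_num)
  have hJ1 : (1 : ℝ) ≤ J := by exact_mod_cast hJ
  obtain ⟨G, hG0, hG⟩ := geo_le (κ := u / (4 * J)) (by positivity)
  set Z : ℝ := 2 * nT * G + 1 with hZ
  have hZ0 : 0 ≤ Z := by positivity
  set K₁ : ℝ := |Cd| ^ (2 * J) with hK₁
  set K₂ : ℝ := (4 * C / log 2) ^ (2 * J) with hK₂
  set K₃ : ℝ := (C * Z) ^ (2 * J) with hK₃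
  have hK₁0 : 0 ≤ K₁ := by positivity
  have hK₂0 : 0 ≤ K₂ := by positivity
  have hK₃0 : 0 ≤ K₃ := by positivity
  refine ⟨4 ^ (2 * J) * (K₁ + K₂ + K₃ * (2 * (2 * nT * 8 ^ J * A * G))), N₁ + N₂ + N₃, by positivity, fun N hNN => ?_⟩
  set R0 : ℝ := 2 ^ N with hR0def
  have hR1 : (1 : ℝ) ≤ R0 := one_le_pow₀ (by norm_num)
  have hR0 : (0 : ℝ) < R0 := by positivity
  set q : ℝ := R0 ^ (1 / 2 : ℝ) with hq
  have hq0 : 0 ≤ q := by positivity
  have hqJ : q ^ (2 * J) = R0 ^ J := by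
    rw [hq, pow_mul, ← Real.rpow_natCast _ 2, ← Real.rpow_mul hR0.le]
    norm_num
  have hexn : ∃ n : ℕ, R0 ^ (1 / 2 + e2 / 2) ≤ 2 ^ n := pow_ex _
  set n1 := Nat.find hexn with hn1
  have hn1s : R0 ^ (1 / 2 + e2 / 2) ≤ 2 ^ n1 := Nat.find_spec hexn
  have hn1N : n1 ≤ N := by
    apply Nat.find_min' hexn
    calc R0 ^ (1 / 2 + e2 / 2) ≤ R0 ^ (1 : ℝ) :=
          Real.rpow_le_rpow_of_exponent_le hR1 (by linarith)
      _ = 2 ^ N := Real.rpow_one _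
  -- two is at most the small power
  have htwo : (2 : ℝ) ≤ R0 ^ (e2 / 2) := by
    rw [hR0def, ← Real.rpow_natCast, ← Real.rpow_mul (by norm_num)]
    have h1 : (1 : ℝ) ≤ N * (e2 / 2) := by
      have h2 : (N₃ : ℝ) ≤ N := by exact_mod_cast (by omega : N₃ ≤ N)
      have h3 : 2 / e2 ≤ N := hN₃.trans h2
      rw [div_le_iff₀ he2] at h3
      linarith
    calc (2 : ℝ) = 2 ^ (1 : ℝ) := (Real.rpow_one _).symm
      _ ≤ _ := Real.rpow_le_rpow_of_exponent_le (by norm_num) h1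
  have hbig : R₁ ≤ R0 := hN₂.trans (pow_le_pow_right₀ (by norm_num) (by omega))
  obtain ⟨d, hd0, hd1, hdl⟩ := hdil R0 hbig
  have hsmall : ∀ n < n1, ∀ r < 2, (2 : ℝ) ^ (n + r) ≤ R0 ^ (1 / 2 + e2) := by
    intro n hn r hr
    have hn2 : (2 : ℝ) ^ n ≤ R0 ^ (1 / 2 + e2 / 2) := by
      have := Nat.find_min hexn hn
      rw [not_le] at this
      exact this.le
    calc (2 : ℝ) ^ (n + r) ≤ 2 ^ (n + 1) := pow_le_pow_right₀ (by norm_num) (by omega)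
      _ = 2 * 2 ^ n := by rw [pow_succ]; ring
      _ ≤ R0 ^ (e2 / 2) * R0 ^ (1 / 2 + e2 / 2) := mul_le_mul htwo hn2 (by positivity) (by positivity)
      _ = R0 ^ (1 / 2 + e2) := by
        rw [← Real.rpow_add hR0]
        congr 1
        ring
  -- the majorants
  have hex : ∀ (n : ℕ) (i : Fin nT) (r : ℕ), ∃ W : ℝ → ℝ, Measurable W ∧ IntegrableOn W (Icc (R0 / 2) (4 * R0)) ∧ (∀ R, 0 ≤ W R) ∧
      (n < n1 → r < 2 → (∀ R ∈ Icc (R0 / 2) (4 * R0), ∀ c : ℝ × ℝ,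
        (∫ α in Icc (-π) π ∩ {α | 1 / 2 ≤ |cos α|}, k0 ((R0 * 2 ^ n) ^ (-(1 / 2) : ℝ)) α *
            ‖Sc (Hw H₀ w) (blk (n + r)) (b n i α) R α c‖) ^ (2 * J) ≤ W R) ∧
        ∫ R in Icc (R0 / 2) (4 * R0), W R ≤ A * R0 * ((2 : ℝ) ^ (n + r)) ^ (3 * J - u : ℝ)) := by
    intro n i r
    by_cases h : n < n1 ∧ r < 2
    · obtain ⟨W, h1, h2, h3, h4, h5⟩ := hW N (by omega) n i r h.2 (hsmall n h.1 r h.2)
      exact ⟨W, h1, h2, h3, fun _ _ => ⟨h4, h5⟩⟩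
    · exact ⟨fun _ => 0, measurable_const, integrableOn_zero, fun _ => le_rfl, fun h1 h2 => absurd ⟨h1, h2⟩ h⟩
  choose W hWm hWi hW0 hWb using hex
  set TT : ℝ → ℝ := fun R => ∑ n ∈ Finset.range n1, ((2 : ℝ) ^ n) ^ ((2 * J - 1) * (u / (4 * J)) - 3 * J) *
      (∑ i, ∑ r ∈ Finset.range 2, W n i r R) with hTT
  have hTTm : Measurable TT := by
    refine Finset.measurable_sum _ fun n _ => Measurable.const_mul ?_ _
    exact Finset.measurable_sum _ fun i _ => Finset.measurable_sum _ fun r _ => hWm n i r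
  have hTTi : IntegrableOn TT (Icc (R0 / 2) (4 * R0)) := by
    refine integrable_finsetSum _ fun n _ => Integrable.const_mul ?_ _
    exact integrable_finsetSum _ fun i _ => integrable_finsetSum _ fun r _ => hWi n i r
  have hTT0 : ∀ R, 0 ≤ TT R := by
    intro R
    exact Finset.sum_nonneg fun n _ => mul_nonneg (by positivity)
      (Finset.sum_nonneg fun i _ => Finset.sum_nonneg fun r _ => hW0 n i r R)
  have hTTint : ∫ R in Icc (R0 / 2) (4 * R0), TT R ≤ 2 * nT * 8 ^ J * A * G * R0 :=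
    TT_int hJ hu hA hR0 (hG n1) hG0 W hWi (fun n hn i r hr => (hWb n i r hn hr).2) hu1
  set SS : ℝ → ℝ := fun R => ∑ n ∈ Finset.range n1, ((2 : ℝ) ^ n) ^ (-(3 / 2) : ℝ) *
    (∑ i, ∑ r ∈ Finset.range 2, W n i r R ^ (((2 * J : ℕ) : ℝ)⁻¹)) with hSS
  have hSS0 : ∀ R, 0 ≤ SS R := by
    intro R
    exact Finset.sum_nonneg fun n _ => mul_nonneg (by positivity)
      (Finset.sum_nonneg fun i _ => Finset.sum_nonneg fun r _ => Real.rpow_nonneg (hW0 n i r R) _)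
  have hSST : ∀ R, SS R ^ (2 * J) ≤ Z ^ (2 * J) * TT R := by
    intro R
    exact blocks_pow hJ (hG n1) hG0 (fun n i r => W n i r R) (fun n i r => hW0 n i r R)
  -- the majorant
  set V : ℝ → ℝ := fun R => 4 ^ (2 * J) * (K₁ * R0 ^ J + K₂ * R0 ^ J + K₃ * R0 ^ J * TT (R + d) + K₃ * R0 ^ J * TT (R + -d)) with hV
  have hVi1 : IntegrableOn (fun R => TT (R + d)) (Icc R0 (2 * R0)) := shift_integrable hTTi (by linarith) (by linarith)
  have hVi2 : IntegrableOn (fun R => TT (R + -d)) (Icc R0 (2 * R0)) := shift_integrable hTTi (by linarith) (by linarith)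
  have hci : ∀ c : ℝ, IntegrableOn (fun _ : ℝ => c) (Icc R0 (2 * R0)) := fun c =>
    continuous_const.continuousOn.integrableOn_compact isCompact_Icc
  refine ⟨V, ?_, ?_, ?_, ?_, ?_⟩
  · refine Measurable.const_mul ?_ _
    refine ((measurable_const.add measurable_const).add ((hTTm.comp (measurable_id.add_const d)).const_mul _)).add
      ((hTTm.comp (measurable_id.add_const (-d))).const_mul _)
  · refine Integrable.const_mul ?_ _
    exact (((hci _).add (hci _)).add (hVi1.const_mul _)).add (hVi2.const_mul _)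
  · intro R hR c
    have hfin := hdl n1 (by
      have e : (1 / 2 + e2 / 2 : ℝ) = 1 / 2 + e2 / 2 := rfl
      exact hn1s) (fun n r => C * q * ((2 : ℝ) ^ n) ^ (-(3 / 2) : ℝ) *
        (∑ i, ∑ r' ∈ Finset.range 2, W n i r' r ^ (((2 * J : ℕ) : ℝ)⁻¹)) + C) (by
      intro n hn r hr c'
      have hr0 : 0 < r := lt_of_lt_of_le (by positivity) hr.1
      obtain ⟨c'', hc''⟩ := hty n p R0 r hR1 hr (supp_mul hH hr0) c'
      refine hc''.trans ?_
      have h1 : ∑ i : Fin nT, ∑ r' ∈ Finset.range 2,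
          ∫ α in Icc (-π) π ∩ {α | 1 / 2 ≤ |cos α|}, k0 ((R0 * 2 ^ n) ^ (-(1 / 2) : ℝ)) α *
            ‖Sc (Hw H₀ w) (blk (n + r')) (b n i α) r α c''‖ ≤
          ∑ i, ∑ r' ∈ Finset.range 2, W n i r' r ^ (((2 * J : ℕ) : ℝ)⁻¹) := by
        refine Finset.sum_le_sum fun i _ => Finset.sum_le_sum fun r' hr' => ?_
        rw [Finset.mem_range] at hr'
        have h2 := (hWb n i r' hn hr').1 r hr c''
        set y := ∫ α in Icc (-π) π ∩ {α | 1 / 2 ≤ |cos α|}, k0 ((R0 * 2 ^ n) ^ (-(1 / 2) : ℝ)) α *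
            ‖Sc (Hw H₀ w) (blk (n + r')) (b n i α) r α c''‖ with hy
        have hy0 : 0 ≤ y := by
          refine integral_nonneg fun α => mul_nonneg ?_ (norm_nonneg _)
          unfold k0
          positivity
        calc y = (y ^ (2 * J)) ^ (((2 * J : ℕ) : ℝ)⁻¹) := (Real.pow_rpow_inv_natCast hy0 (by omega)).symm
          _ ≤ _ := Real.rpow_le_rpow (by positivity) h2 (by positivity)
      exact add_le_add (mul_le_mul_of_nonneg_left h1 (by positivity)) le_rfl) R hR (c.1 + R * p.1, c.2 + R * p.2)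
    rw [← Pool.Agent.Helper11.AD.cntc_shift (Hw H₀ w) p c R, ← Pool.Agent.Helper11.AD.area_shift (Hw H₀ w) p] at hfin
    have e1 : ∑ n ∈ Finset.range n1, ((C * q * ((2 : ℝ) ^ n) ^ (-(3 / 2) : ℝ) *
        (∑ i, ∑ r' ∈ Finset.range 2, W n i r' (R + d) ^ (((2 * J : ℕ) : ℝ)⁻¹)) + C) +
        (C * q * ((2 : ℝ) ^ n) ^ (-(3 / 2) : ℝ) *
        (∑ i, ∑ r' ∈ Finset.range 2, W n i r' (R - d) ^ (((2 * J : ℕ) : ℝ)⁻¹)) + C)) =
        2 * C * n1 + C * q * SS (R + d) + C * q * SS (R + -d) := by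
      rw [hSS]
      simp only [Finset.mul_sum, ← sub_eq_add_neg]
      rw [Finset.sum_add_distrib, Finset.sum_add_distrib, Finset.sum_add_distrib]
      simp only [Finset.sum_const, Finset.card_range, nsmul_eq_mul, mul_assoc]
      ring
    rw [e1] at hfin
    have h2 : 2 * C * n1 ≤ 4 * C / log 2 * q := by
      have h3 : (n1 : ℝ) ≤ 2 / log 2 * q := by
        refine le_trans ?_ (nat_le_root N)
        exact_mod_cast hn1N
      calc 2 * C * n1 ≤ 2 * C * (2 / log 2 * q) := mul_le_mul_of_nonneg_left h3 (by positivity)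
        _ = _ := by ring
    have h4 : Cd * R0 ^ (1 - 1 / 2 : ℝ) ≤ |Cd| * q := by
      have e : (1 - 1 / 2 : ℝ) = 1 / 2 := by norm_num
      rw [e]
      exact mul_le_mul_of_nonneg_right (le_abs_self _) hq0
    have h5 : |cntc (Hw H₀ w) c R - area (Hw H₀ w) * R ^ 2| ≤
        |Cd| * q + 4 * C / log 2 * q + C * q * SS (R + d) + C * q * SS (R + -d) := by
      linarith
    have hp1 : ∀ R', (C * q * SS R') ^ (2 * J) ≤ K₃ * R0 ^ J * TT R' := by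
      intro R'
      calc (C * q * SS R') ^ (2 * J) = (C * q) ^ (2 * J) * SS R' ^ (2 * J) := mul_pow _ _ _
        _ ≤ (C * q) ^ (2 * J) * (Z ^ (2 * J) * TT R') := mul_le_mul_of_nonneg_left (hSST R') (by positivity)
        _ = K₃ * R0 ^ J * TT R' := by
          rw [hK₃, ← hqJ, mul_pow, mul_pow]
          ring
    calc |cntc (Hw H₀ w) c R - area (Hw H₀ w) * R ^ 2| ^ (2 * J)
        ≤ (|Cd| * q + 4 * C / log 2 * q + C * q * SS (R + d) + C * q * SS (R + -d)) ^ (2 * J) :=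
          pow_le_pow_left₀ (abs_nonneg _) h5 _
      _ ≤ 4 ^ (2 * J) * ((|Cd| * q) ^ (2 * J) + (4 * C / log 2 * q) ^ (2 * J) + (C * q * SS (R + d)) ^ (2 * J) +
          (C * q * SS (R + -d)) ^ (2 * J)) :=
          four_pow (by positivity) (by positivity) (mul_nonneg (by positivity) (hSS0 _)) (mul_nonneg (by positivity) (hSS0 _)) _
      _ ≤ V R := by
        rw [hV]
        refine mul_le_mul_of_nonneg_left ?_ (by positivity)
        have g1 : (|Cd| * q) ^ (2 * J) = K₁ * R0 ^ J := by rw [mul_pow, hqJ]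
        have g2 : (4 * C / log 2 * q) ^ (2 * J) = K₂ * R0 ^ J := by rw [mul_pow, hqJ]
        have g3 := hp1 (R + d)
        have g4 := hp1 (R + -d)
        linarith
  · intro R
    rw [hV]
    have g3 := hTT0 (R + d)
    have g4 := hTT0 (R + -d)
    positivity
  · have g1 : ∫ R in Icc R0 (2 * R0), TT (R + d) ≤ 2 * nT * 8 ^ J * A * G * R0 :=
      (shift_le hTT0 hTTi (by linarith) (by linarith)).trans hTTint
    have g2 : ∫ R in Icc R0 (2 * R0), TT (R + -d) ≤ 2 * nT * 8 ^ J * A * G * R0 :=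
      (shift_le hTT0 hTTi (by linarith) (by linarith)).trans hTTint
    have g3 : ∀ c : ℝ, ∫ _ in Icc R0 (2 * R0), c = c * R0 := by
      intro c
      rw [setIntegral_const, Real.volume_real_Icc_of_le (by linarith), smul_eq_mul]
      ring
    have i2 : IntegrableOn (fun R => K₃ * R0 ^ J * TT (R + d)) (Icc R0 (2 * R0)) := hVi1.const_mul _
    have i3 : IntegrableOn (fun R => K₃ * R0 ^ J * TT (R + -d)) (Icc R0 (2 * R0)) := hVi2.const_mul _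
    have i4 : IntegrableOn (fun R => K₁ * R0 ^ J + K₂ * R0 ^ J + K₃ * R0 ^ J * TT (R + d)) (Icc R0 (2 * R0)) :=
      (hci (K₁ * R0 ^ J + K₂ * R0 ^ J)).add i2
    have e4 : ∫ R in Icc R0 (2 * R0), V R = 4 ^ (2 * J) * (K₁ * R0 ^ J * R0 + K₂ * R0 ^ J * R0 +
        K₃ * R0 ^ J * (∫ R in Icc R0 (2 * R0), TT (R + d)) + K₃ * R0 ^ J * ∫ R in Icc R0 (2 * R0), TT (R + -d)) := by
      rw [hV, integral_const_mul]
      congr 1
      rw [integral_add i4 i3, integral_add (hci (K₁ * R0 ^ J + K₂ * R0 ^ J)) i2, g3, integral_const_mul, integral_const_mul]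
      ring
    rw [e4, pow_succ]
    have hRJ : 0 ≤ K₃ * R0 ^ J := by positivity
    have g4 := mul_le_mul_of_nonneg_left g1 hRJ
    have g5 := mul_le_mul_of_nonneg_left g2 hRJ
    have h4J : (0 : ℝ) ≤ 4 ^ (2 * J) := by positivity
    calc (4 : ℝ) ^ (2 * J) * (K₁ * R0 ^ J * R0 + K₂ * R0 ^ J * R0 + K₃ * R0 ^ J * (∫ R in Icc R0 (2 * R0), TT (R + d)) +
          K₃ * R0 ^ J * ∫ R in Icc R0 (2 * R0), TT (R + -d))
        ≤ 4 ^ (2 * J) * (K₁ * R0 ^ J * R0 + K₂ * R0 ^ J * R0 + K₃ * R0 ^ J * (2 * nT * 8 ^ J * A * G * R0) +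
          K₃ * R0 ^ J * (2 * nT * 8 ^ J * A * G * R0)) := mul_le_mul_of_nonneg_left (by linarith) h4J
      _ = _ := by ring

end Pool.Agent.Helper11.MM
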