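import Pool.Agent.Helper92.MM.Defs
import Pool.Agent.Helper11.MM.Sum

/-!
# MM-M6: the moments of the largest error over all centres, from the majorants of the blocks
-/

open MeasureTheory Real Set Filter Topology

set_option autoImplicit false

namespace Pool.Agent.Helper11.MM

open Pool.Agent.Helper22.AE
open Pool.Agent.Helper22.AC (cntc)
open Pool.Agent.Helper92.GC (dt sqa)
open Pool.Agent.Helper60.AD
open Pool.Agent.Helper92.MM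

/-- from dyadic intervals to all `X` -/
theorem mom_of_dyadic {J : ℕ} (H : ℝ → ℝ) {K : ℝ} {N₂ : ℕ} (hK : 0 ≤ K)
    (hV : ∀ N : ℕ, N₂ ≤ N → ∃ V : ℝ → ℝ, Measurable V ∧ IntegrableOn V (Icc ((2 : ℝ) ^ N) (2 * 2 ^ N)) ∧
      (∀ R ∈ Icc ((2 : ℝ) ^ N) (2 * 2 ^ N), ∀ c : ℝ × ℝ, |cntc H c R - area H * R ^ 2| ^ (2 * J) ≤ V R) ∧
      (∀ R, 0 ≤ V R) ∧ ∫ R in Icc ((2 : ℝ) ^ N) (2 * 2 ^ N), V R ≤ K * ((2 : ℝ) ^ N) ^ (J + 1)) :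
    ∃ C' : ℝ, ∀ X : ℝ, 1 ≤ X → mom J H X ≤ ENNReal.ofReal (C' * X ^ (1 + J)) := by
  obtain ⟨Cs, hCs, hsmall⟩ := Pool.Agent.Helper11.AD.small_rad_pow H (2 ^ (N₂ + 1))
  have hdy : ∀ N : ℕ, N₂ ≤ N → ∫⁻ R in Icc ((2 : ℝ) ^ N) (2 * 2 ^ N), ⨆ c : ℝ × ℝ, ENNReal.ofReal (|cntc H c R - area H * R ^ 2| ^ (2 * J)) ≤
      ENNReal.ofReal (K * ((2 : ℝ) ^ N) ^ (J + 1)) := by
    intro N hN
    obtain ⟨V, -, h2, h3, h4, h5⟩ := hV N hN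
    calc ∫⁻ R in Icc ((2 : ℝ) ^ N) (2 * 2 ^ N), ⨆ c : ℝ × ℝ, ENNReal.ofReal (|cntc H c R - area H * R ^ 2| ^ (2 * J))
        ≤ ∫⁻ R in Icc ((2 : ℝ) ^ N) (2 * 2 ^ N), ENNReal.ofReal (V R) :=
          setLIntegral_mono' measurableSet_Icc fun R hR => iSup_le fun c => ENNReal.ofReal_le_ofReal (h3 R hR c)
      _ = ENNReal.ofReal (∫ R in Icc ((2 : ℝ) ^ N) (2 * 2 ^ N), V R) :=
          (ofReal_integral_eq_lintegral_ofReal h2 (ae_of_all _ h4)).symm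
      _ ≤ _ := ENNReal.ofReal_le_ofReal h5
  refine ⟨Cs ^ (2 * J) + K * (1 + 2 ^ (J + 1)), fun X hX => ?_⟩
  have hX0 : 0 < X := by linarith
  have hXJ : X ≤ X ^ (1 + J) := by
    calc X = X ^ 1 := (pow_one X).symm
      _ ≤ _ := pow_le_pow_right₀ hX (by omega)
  rcases lt_or_ge X (2 ^ N₂) with hc | hc
  · have h1 : mom J H X ≤ ∫⁻ _ in Icc X (2 * X), ENNReal.ofReal (Cs ^ (2 * J)) := by
      unfold mom
      refine setLIntegral_mono' measurableSet_Icc fun R hR => iSup_le fun c => ENNReal.ofReal_le_ofReal ?_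
      have h2 := hsmall R (hX.trans hR.1) (by rw [pow_succ]; linarith [hR.2]) c 0 le_rfl
      rw [Real.rpow_zero, mul_one] at h2
      exact pow_le_pow_left₀ (abs_nonneg _) h2 _
    refine h1.trans ?_
    rw [setLIntegral_const, Real.volume_Icc, ← ENNReal.ofReal_mul (by positivity)]
    refine ENNReal.ofReal_le_ofReal ?_
    have e : 2 * X - X = X := by ring
    rw [e, add_mul]
    have h3 : Cs ^ (2 * J) * X ≤ Cs ^ (2 * J) * X ^ (1 + J) := mul_le_mul_of_nonneg_left hXJ (by positivity)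
    have h4 : 0 ≤ K * (1 + 2 ^ (J + 1)) * X ^ (1 + J) := by positivity
    linarith
  · obtain ⟨N, hN1, hN2⟩ := exists_nat_pow_near hX (one_lt_two)
    have hNN : N₂ ≤ N := by
      by_contra hcon
      have h1 : N + 1 ≤ N₂ := by omega
      have h2 : (2 : ℝ) ^ (N + 1) ≤ 2 ^ N₂ := pow_le_pow_right₀ (by norm_num) h1
      linarith
    have hsub : Icc X (2 * X) ⊆ Icc ((2 : ℝ) ^ N) (2 * 2 ^ N) ∪ Icc ((2 : ℝ) ^ (N + 1)) (2 * 2 ^ (N + 1)) := by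
      intro R hR
      rw [pow_succ] at hN2 ⊢
      rcases le_total R (2 * 2 ^ N) with h | h
      · exact Or.inl ⟨hN1.trans hR.1, h⟩
      · exact Or.inr ⟨by linarith, by linarith [hR.2]⟩
    unfold mom
    refine (lintegral_mono_set hsub).trans ((lintegral_union_le _ _ _).trans ((add_le_add (hdy N hNN) (hdy (N + 1) (by omega))).trans ?_))
    rw [← ENNReal.ofReal_add (by positivity) (by positivity)]
    refine ENNReal.ofReal_le_ofReal ?_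
    have h1 : ((2 : ℝ) ^ N) ^ (J + 1) ≤ X ^ (J + 1) := pow_le_pow_left₀ (by positivity) hN1 _
    have h2 : ((2 : ℝ) ^ (N + 1)) ^ (J + 1) ≤ (2 * X) ^ (J + 1) :=
      pow_le_pow_left₀ (by positivity) (by rw [pow_succ]; linarith) _
    have h3 : X ^ (1 + J) = X ^ (J + 1) := by rw [add_comm]
    rw [mul_pow] at h2
    rw [h3]
    have g1 := mul_le_mul_of_nonneg_left h1 hK
    have g2 := mul_le_mul_of_nonneg_left h2 hK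
    have g3 : 0 ≤ Cs ^ (2 * J) * X ^ (J + 1) := by positivity
    calc K * ((2 : ℝ) ^ N) ^ (J + 1) + K * ((2 : ℝ) ^ (N + 1)) ^ (J + 1) ≤
          K * X ^ (J + 1) + K * (2 ^ (J + 1) * X ^ (J + 1)) := add_le_add g1 g2
      _ ≤ (Cs ^ (2 * J) + K * (1 + 2 ^ (J + 1))) * X ^ (J + 1) := by linarith

theorem mom_blocks {L : ℕ} {H₀ : ℝ → ℝ} (h0 : ContDiff ℝ 2 H₀) (hp : Function.Periodic H₀ (2 * π)) {J : ℕ} (hJ : 1 ≤ J) {e2 u A : ℝ}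
    (he2 : 0 < e2) (he2' : e2 ≤ 1 / 4) (hu : 0 < u) (hu1 : u ≤ 1) (hA : 0 ≤ A) {nT : ℕ} {C : ℝ} (hC : 0 ≤ C)
    (b : ℕ → Fin nT → ℝ → ℤ × ℤ → ℂ) (hb : ∀ n i α k, ‖b n i α k‖ ≤ 1) (hbc : ∀ n i k, Continuous (fun α => b n i α k))
    (w : (Fin L → ℝ) × (Fin L → ℝ)) (hw : ∀ θ, 0 < Hw H₀ w θ + deriv (deriv (Hw H₀ w)) θ)
    (hty : ∀ (n : ℕ) (p : ℝ × ℝ) (R₀ R : ℝ), 1 ≤ R₀ →
        R ∈ Icc (R₀ / 2) (4 * R₀) → IsSupp (fun θ => R * (Hw H₀ w θ - (p.1 * cos θ + p.2 * sin θ))) → ∀ c : ℝ × ℝ, ∃ c' : ℝ × ℝ,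
          ‖∑ k ∈ sqa (2 ^ n), ft (fun θ => R * (Hw H₀ w θ - (p.1 * cos θ + p.2 * sin θ))) k * ee (dt k c)‖ ≤
            C * R₀ ^ (1 / 2 : ℝ) * ((2 : ℝ) ^ n) ^ (-(3 / 2) : ℝ) * (∑ i, ∑ r ∈ Finset.range 2,
              ∫ α in Icc (-π) π ∩ {α | 1 / 2 ≤ |cos α|}, k0 ((R₀ * 2 ^ n) ^ (-(1 / 2) : ℝ)) α *
                ‖Sc (Hw H₀ w) (blk (n + r)) (b n i α) R α c'‖) + C)
    {N₁ : ℕ} (hW : ∀ N : ℕ, N₁ ≤ N → ∀ n : ℕ, ∀ i, ∀ r < 2, (2 : ℝ) ^ (n + r) ≤ ((2 : ℝ) ^ N) ^ (1 / 2 + e2) →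
      ∃ W : ℝ → ℝ, Continuous W ∧ (∀ R, 0 ≤ W R) ∧ (∀ R ∈ Icc ((2 : ℝ) ^ N / 2) (4 * 2 ^ N), ∀ c : ℝ × ℝ,
        (∫ α in gd1, k0 (((2 : ℝ) ^ N * 2 ^ n) ^ (-(1 / 2) : ℝ)) α * ‖Sc (Hw H₀ w) (blk (n + r)) (b n i α) R α c‖) ^ (2 * J) ≤ W R) ∧
        ∫ R in Icc ((2 : ℝ) ^ N / 2) (4 * 2 ^ N), W R ≤ A * 2 ^ N * ((2 : ℝ) ^ (n + r)) ^ (3 * J - u : ℝ)) :
    ∃ C' : ℝ, ∀ X : ℝ, 1 ≤ X → mom J (Hw H₀ w) X ≤ ENNReal.ofReal (C' * X ^ (1 + J)) := by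
  obtain ⟨K, N₂, hK, hV⟩ := core h0 hp hJ he2 he2' hu hu1 hA hC b w hw hty (N₁ := N₁) (by
    intro N hN n i r hr hnr
    obtain ⟨W, h1, h2, h3, h4⟩ := hW N hN n i r hr hnr
    exact ⟨W, h1.measurable, h1.continuousOn.integrableOn_compact isCompact_Icc, h2, h3, h4⟩)
  exact mom_of_dyadic (Hw H₀ w) hK hV

end Pool.Agent.Helper11.MM
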